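import Pool.Agent.H1.AVS.TRC

/-!
# Board `avs`, module SOL: a point of the covering gives a point of the curve
-/

set_option autoImplicit false

namespace Pool.AVS

open Polynomial Matrix Pool.AVR

namespace SOL

variable {K : Type} [Field K]

theorem norm_sub (g : K[X]) (hg : g.Monic) (x : K) :
    Algebra.norm K (AdjoinRoot.mk g (C x - X)) = g.eval x := by
  have h1 : AdjoinRoot.mk g (C x - X) =
      algebraMap K (AdjoinRoot g) x - (AdjoinRoot.powerBasis' hg).gen := by
    rw [map_sub, AdjoinRoot.mk_C, AdjoinRoot.mk_X]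
    rfl
  rw [h1, Algebra.norm_eq_matrix_det (AdjoinRoot.powerBasis' hg).basis]
  have h2 : Algebra.leftMulMatrix (AdjoinRoot.powerBasis' hg).basis
      (algebraMap K (AdjoinRoot g) x - (AdjoinRoot.powerBasis' hg).gen) =
      Matrix.scalar _ x -
        Algebra.leftMulMatrix (AdjoinRoot.powerBasis' hg).basis (AdjoinRoot.powerBasis' hg).gen := by
    rw [map_sub]
    congr 1
    rw [AlgHom.commutes]
    rfl
  rw [h2, ← Matrix.eval_charpoly, charpoly_leftMulMatrix]
  congr 1
  rw [AdjoinRoot.powerBasis'_gen, AdjoinRoot.minpoly_root hg.ne_zero, hg.leadingCoeff, inv_one,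
    C.map_one, mul_one]

theorem norm_ne (g p : K[X]) (h : IsCoprime p g) :
    Algebra.norm K (AdjoinRoot.mk g p) ≠ 0 := by
  obtain ⟨u, v, huv⟩ := h
  have h1 : AdjoinRoot.mk g u * AdjoinRoot.mk g p = 1 := by
    rw [← map_mul, ← map_one (AdjoinRoot.mk g)]
    refine AdjoinRoot.mk_eq_mk.2 ⟨-v, ?_⟩
    linear_combination huv
  have h2 := congrArg (Algebra.norm K) h1
  rw [map_mul, map_one] at h2
  intro h3
  rw [h3, mul_zero] at h2
  exact zero_ne_one h2

/-- the exceptional parameters -/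
theorem finite_exc (h2 : (2 : K) ≠ 0) (a b c : K) (h : K[X]) (e : Fin 3 → K[X])
    (he : ∀ i j, tau a b c (e i * e j * h) = AA K i j) :
    {s : K | ¬ IsCoprime (∑ k, zz 1 s k • e k) (cub a b c)}.Finite := by
  classical
  have h2L : (2 : AlgebraicClosure K) ≠ 0 := by
    intro h0
    apply h2
    apply (algebraMap K (AlgebraicClosure K)).injective
    rw [map_ofNat, map_zero]
    exact h0
  let L := AlgebraicClosure K
  let Q : L → L[X] := fun θ => C (aeval θ (e 0)) + C (aeval θ (e 1)) * X -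
    C (aeval θ (e 2) / 2) * X ^ 2
  have hQe : ∀ θ s, (Q θ).eval (algebraMap K L s) = aeval θ (∑ k, zz 1 s k • e k) := by
    intro θ s
    rw [Fin.sum_univ_three, map_add, map_add, map_smul, map_smul, map_smul, Algebra.smul_def,
      Algebra.smul_def, Algebra.smul_def]
    simp only [Q, zz, eval_sub, eval_add, eval_mul, eval_C, eval_X, eval_pow,
      Matrix.cons_val, map_div₀, map_neg, map_pow, map_mul, map_one, map_ofNat]
    ring
  have hQ0 : ∀ θ, aeval θ (cub a b c) = 0 → Q θ ≠ 0 := by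
    intro θ hθ h0
    have c0 := congrArg (fun p : L[X] => p.coeff 0) h0
    have c1 := congrArg (fun p : L[X] => p.coeff 1) h0
    have c2 := congrArg (fun p : L[X] => p.coeff 2) h0
    simp only [Q, coeff_sub, coeff_add, coeff_C_mul, coeff_X_pow, coeff_C, coeff_X,
      coeff_zero] at c0 c1 c2
    norm_num at c0 c1 c2
    have h3 : ∀ k, aeval θ (e k) = 0 := by
      intro k
      fin_cases k
      · exact c0
      · exact c1
      · rcases c2 with c2 | c2
        · exact c2
        · exact absurd c2 h2L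
    obtain ⟨z, p, hz⟩ := TRC.span he TRC.AA_det_ne 1
    have h4 := congrArg (aeval θ) hz
    rw [map_sub, map_one, map_mul, hθ, zero_mul, map_sum, Finset.sum_eq_zero, sub_zero] at h4
    · exact one_ne_zero h4
    · intro k _
      rw [map_smul, h3 k, smul_zero]
  have hfin : (⋃ θ ∈ ((cub a b c).aroots L).toFinset,
      (algebraMap K L) ⁻¹' {t : L | (Q θ).IsRoot t}).Finite := by
    refine Set.Finite.biUnion (Finset.finite_toSet _) fun θ hθ => ?_
    refine Set.Finite.preimage (algebraMap K L).injective.injOn ?_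
    have hθ' : aeval θ (cub a b c) = 0 := by
      have := Multiset.mem_toFinset.1 (Finset.mem_coe.1 hθ)
      exact (mem_aroots.1 this).2
    exact finite_setOfPred_isRoot (hQ0 θ hθ')
  refine hfin.subset fun s hs => ?_
  have h5 : ¬ ∀ θ : L, aeval θ (∑ k, zz 1 s k • e k) ≠ 0 ∨ aeval θ (cub a b c) ≠ 0 := by
    rw [← Polynomial.isCoprime_iff_aeval_ne_zero_of_isAlgClosed]
    exact hs
  push Not at h5
  obtain ⟨θ, h6, h7⟩ := h5
  refine Set.mem_biUnion (x := θ) ?_ ?_
  · rw [Finset.mem_coe, Multiset.mem_toFinset, mem_aroots]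
    exact ⟨(bas_monic a b c).ne_zero, h7⟩
  · show (Q θ).eval (algebraMap K L s) = 0
    rw [hQe, h6]

end SOL

open SOL in
theorem sol_thm (hNGH : NGHStmt) : SOLStmt := by
  intro K _ h2 a b c h B hsep hR
  obtain ⟨hcop, r, hr⟩ := (hNGH K a b c h).2.2 B hR
  obtain ⟨e, he, heX⟩ := hR
  refine ⟨_, finite_exc h2 a b c h e he, fun s w hs hw hsw => ?_⟩
  have hcE : IsCoprime (∑ k, zz 1 s k • e k) (cub a b c) := by
    by_contra h3
    exact hs h3
  have hA : tau a b c (h * ((∑ k, zz 1 s k • e k) * (∑ k, zz 1 s k • e k))) = 0 := by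
    have h3 := TRC.bil_eq (basT a b c) h e (AA K) (fun i j => by
        rw [basT_apply, ← he i j, mul_comm]) (zz 1 s)
    rw [basT_apply] at h3
    rw [h3]
    simp only [bil, AA, zz, dotProduct, Matrix.mulVec, Fin.sum_univ_three, Matrix.cons_val,
      Matrix.of_apply]
    field_simp
    ring
  have hB : tau a b c (X * (h * ((∑ k, zz 1 s k • e k) * (∑ k, zz 1 s k • e k)))) =
      -w ^ 2 := by
    have h3 := TRC.bil_eq (basT a b c) (X * h) e B (fun i j => by
        rw [basT_apply, ← heX i j]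
        congr 1
        ring) (zz 1 s)
    rw [basT_apply] at h3
    rw [← mul_assoc, h3, hsw, neg_neg]
  obtain ⟨E, hE⟩ : ∃ E, E = ∑ k, zz 1 s k • e k := ⟨_, rfl⟩
  rw [← hE] at hcE hA hB
  have hX1 : tau a b c X = 0 := by
    unfold tau
    rw [ISOaux.rem_eq_self a b c X (by simp), coeff_X]
    simp
  have hX2 : tau a b c (X * X) = 1 := by
    unfold tau
    rw [ISOaux.rem_eq_self a b c (X * X) (by
      rw [← sq, natDegree_X_pow]
      norm_num), ← sq, coeff_X_pow]
    simp
  obtain ⟨k, hk⟩ := ISOaux.const_of_tau a b c (h * (E * E) + C (w ^ 2) * X) (by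
    rw [← basT_apply, map_add, ← smul_eq_C_mul, map_smul, basT_apply, basT_apply, hA, hX1]
    simp) (by
    have h3 : X * (h * (E * E) + C (w ^ 2) * X) = X * (h * (E * E)) + C (w ^ 2) * (X * X) := by
      ring
    rw [h3, ← basT_apply, map_add, ← smul_eq_C_mul, map_smul, basT_apply, basT_apply, hB, hX2]
    simp)
  obtain ⟨q, hq⟩ := hk
  have hwi : (C (w⁻¹) : K[X]) * C w = 1 := by rw [← C_mul, inv_mul_cancel₀ hw, C_1]
  have hxk : (C (k / w ^ 2) : K[X]) = C (w⁻¹) ^ 2 * C k := by
    rw [← C_pow, ← C_mul]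
    congr 1
    field_simp
  have hdiv : cub a b c ∣ (C (k / w ^ 2) - X) - h * (C (w⁻¹) * E) ^ 2 := by
    refine ⟨-(C (w⁻¹) ^ 2 * q), ?_⟩
    rw [hxk]
    rw [C_pow] at hq
    linear_combination -C (w⁻¹) ^ 2 * hq + (C (w⁻¹) * C w + 1) * X * hwi
  refine ⟨k / w ^ 2, r * Algebra.norm K (AdjoinRoot.mk (cub a b c) E) / w ^ 3, ?_, ?_,
    C (w⁻¹) * E, hdiv⟩
  · have h3 := congrArg (Algebra.norm K) (AdjoinRoot.mk_eq_mk.2 hdiv)
    rw [norm_sub _ (bas_monic a b c), map_mul, map_pow, map_mul, map_mul, map_pow, map_mul,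
      TRC.norm_C, hr] at h3
    have h4 : (cub a b c).eval (k / w ^ 2) =
        (k / w ^ 2) ^ 3 + a * (k / w ^ 2) ^ 2 + b * (k / w ^ 2) + c := by
      simp [cub]
    show (r * Algebra.norm K (AdjoinRoot.mk (cub a b c) E) / w ^ 3) ^ 2 =
        (k / w ^ 2) ^ 3 + a * (k / w ^ 2) ^ 2 + b * (k / w ^ 2) + c
    rw [← h4, h3]
    field_simp
  · have h5 := norm_ne _ _ hcE
    have h6 : r ≠ 0 := by
      intro h0
      have h7 := norm_ne _ _ hcop
      rw [hr, h0, mul_zero] at h7
      exact h7 rfl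
    exact div_ne_zero (mul_ne_zero h6 h5) (pow_ne_zero 3 hw)

end Pool.AVS
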